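import Mathlib

namespace Pool.Agent.H.MP_79a327_al
open Polynomial

section cone
variable {S : Type} [CommRing S] [Algebra ℚ S] (T : S) (C : Set S)

def WW (w : ℚ[X]) : Prop := ∃ n : ℕ, 0 < n ∧ ∀ c ∈ C, (n : S) * aeval T w * c ∈ C

def TT (f : ℚ[X]) : Prop := ∃ m, WW T C m ∧ 0 < m.eval 1 ∧ WW T C (m * f)

variable {T C} (h0 : (0 : S) ∈ C) (ha : ∀ c ∈ C, ∀ d ∈ C, c + d ∈ C)
include h0 ha

theorem nat_mem (n : ℕ) {c : S} (hc : c ∈ C) : (n : S) * c ∈ C := by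
  induction n with
  | zero => simpa using h0
  | succ n ih => rw [Nat.cast_succ, add_mul, one_mul]; exact ha _ ih _ hc

theorem WW.add {v w : ℚ[X]} (hv : WW T C v) (hw : WW T C w) : WW T C (v + w) := by
  obtain ⟨n, hn, a⟩ := hv
  obtain ⟨m, hm, b⟩ := hw
  refine ⟨n * m, Nat.mul_pos hn hm, fun c hc => ?_⟩
  convert ha _ (nat_mem h0 ha m (a c hc)) _ (nat_mem h0 ha n (b c hc)) using 1
  simp only [map_add, Nat.cast_mul]; ring

omit h0 ha in
theorem WW.mul {v w : ℚ[X]} (hv : WW T C v) (hw : WW T C w) : WW T C (v * w) := by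
  obtain ⟨n, hn, a⟩ := hv
  obtain ⟨m, hm, b⟩ := hw
  refine ⟨n * m, Nat.mul_pos hn hm, fun c hc => ?_⟩
  convert a _ (b c hc) using 1
  simp only [map_mul, Nat.cast_mul]; ring

theorem WW.const {q : ℚ} (hq : 0 ≤ q) : WW T C (Polynomial.C q) := by
  refine ⟨q.den, q.pos, fun c hc => ?_⟩
  convert nat_mem h0 ha q.num.toNat hc using 2
  rw [aeval_C, ← map_natCast (algebraMap ℚ S), ← map_mul, ← map_natCast (algebraMap ℚ S)]
  congr 1
  rw [mul_comm, Rat.mul_den_eq_num]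
  have := Int.toNat_of_nonneg (Rat.num_nonneg.2 hq)
  exact_mod_cast this.symm

theorem WW.tt {w : ℚ[X]} (hw : WW T C w) : TT T C w :=
  ⟨1, by simpa using WW.const h0 ha (T := T) zero_le_one, by simp, by rwa [one_mul]⟩

theorem TT.add {v w : ℚ[X]} (hv : TT T C v) (hw : TT T C w) : TT T C (v + w) := by
  obtain ⟨n, a1, a2, a3⟩ := hv
  obtain ⟨m, b1, b2, b3⟩ := hw
  refine ⟨n * m, a1.mul b1, by rw [eval_mul]; positivity, ?_⟩
  convert (a3.mul b1).add h0 ha (b3.mul a1) using 1; ring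

omit h0 ha in
theorem TT.mul {v w : ℚ[X]} (hv : TT T C v) (hw : TT T C w) : TT T C (v * w) := by
  obtain ⟨n, a1, a2, a3⟩ := hv
  obtain ⟨m, b1, b2, b3⟩ := hw
  refine ⟨n * m, a1.mul b1, by rw [eval_mul]; positivity, ?_⟩
  convert a3.mul b3 using 1; ring

variable (hT : ∀ c ∈ C, T * c ∈ C) (h1 : ∀ j : ℕ, ∀ c ∈ C, (2 - T ^ j) * c ∈ C)
  (h2 : ∀ j : ℕ, ∀ c ∈ C, (2 * T ^ j - 1) * c ∈ C)
include hT h1 h2

theorem lin (q : ℚ) : TT T C (1 + Polynomial.C q * (X - 1)) := by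
  have wX : ∀ j : ℕ, WW T C (X ^ j) := by
    intro j
    induction j with
    | zero => simpa using WW.const h0 ha (T := T) zero_le_one
    | succ j ih => rw [pow_succ]; exact ih.mul ⟨1, one_pos, fun c hc => by simpa using hT c hc⟩
  have w1 : ∀ j : ℕ, WW T C (2 - X ^ j) := fun j =>
    ⟨1, one_pos, fun c hc => by simpa [map_ofNat] using h1 j c hc⟩
  have w2 : ∀ j : ℕ, WW T C (X ^ j - Polynomial.C (1 / 2)) := fun j =>
    ⟨2, two_pos, fun c hc => by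
      convert h2 j c hc using 2
      have : (2 : S) * algebraMap ℚ S (1 / 2) = 1 := by
        rw [← map_ofNat (algebraMap ℚ S) 2, ← map_mul]; norm_num
      simp only [map_sub, map_pow, aeval_X, aeval_C, Nat.cast_ofNat]
      linear_combination -this⟩
  have ws : ∀ j : ℕ, WW T C (∑ i ∈ Finset.range j, X ^ i - Polynomial.C ((j : ℚ) / 2)) := by
    intro j
    induction j with
    | zero => simpa using WW.const h0 ha (T := T) le_rfl
    | succ j ih =>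
      convert ih.add h0 ha (w2 j) using 1
      rw [Finset.sum_range_succ, Nat.cast_succ, add_div, map_add]; ring
  obtain ⟨j, hj⟩ := exists_nat_gt (2 * |q|)
  have hq := abs_nonneg q
  have g := geom_sum_mul (X : ℚ[X]) j
  refine ⟨∑ i ∈ Finset.range j, X ^ i, ?_, ?_, ?_⟩
  · simpa using (ws j).add h0 ha (WW.const h0 ha (q := (j : ℚ) / 2) (by positivity))
  · simp only [eval_finset_sum, eval_pow, eval_X, one_pow, Finset.sum_const, Finset.card_range,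
      nsmul_eq_mul, mul_one]
    linarith
  · have a1 := (ws j).add h0 ha (WW.const h0 ha (q := (j : ℚ) / 2 - |q|) (by linarith))
    rcases le_total 0 q with e | e
    · rw [abs_of_nonneg e] at a1
      convert a1.add h0 ha ((WW.const h0 ha e).mul (wX j)) using 1
      rw [map_sub]; linear_combination Polynomial.C q * g
    · rw [abs_of_nonpos e] at a1
      convert a1.add h0 ha ((WW.const h0 ha (neg_nonneg.2 e)).mul (w1 j)) using 1
      rw [map_sub, map_neg]; linear_combination Polynomial.C q * g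

theorem tt_of_pos (f : ℚ[X]) (hf : 0 < f.eval 1) : TT T C f := by
  have hh : TT T C (Polynomial.C (1 / 2)) := (WW.const h0 ha (by norm_num)).tt h0 ha
  have e2 : Polynomial.C (1 / 2 : ℚ) * 2 = 1 := by
    rw [← map_ofNat Polynomial.C 2, ← map_mul]; norm_num
  let I : ℚ[X] → Prop := fun g => ∀ q : ℚ, TT T C (1 + Polynomial.C q * g)
  have Iadd : ∀ g g', I g → I g' → I (g + g') := fun g g' a b q => by
    convert hh.mul ((a (2 * q)).add h0 ha (b (2 * q))) using 1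
    rw [map_mul, map_ofNat]
    linear_combination (-1 - Polynomial.C q * (g + g')) * e2
  have Imul : ∀ g g', I g → I g' → I (g * g') := fun g g' a b q => by
    convert hh.mul (((a q).mul (b 1)).add h0 ha ((a (-q)).mul (b (-1)))) using 1
    simp only [map_neg, map_one]
    linear_combination (-1 - Polynomial.C q * (g * g')) * e2
  have Id : I (X - 1) := lin h0 ha hT h1 h2
  have Iall : ∀ p : ℚ[X], I ((X - 1) * p) := by
    intro p
    induction p using Polynomial.induction_on with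
    | C a => intro q; convert Id (q * a) using 2; rw [map_mul]; ring
    | add p p' a b => rw [mul_add]; exact Iadd _ _ a b
    | monomial n a ih => convert Iadd _ _ (Imul _ _ ih Id) ih using 1; ring
  obtain ⟨p, hp⟩ : X - Polynomial.C 1 ∣ f - Polynomial.C (f.eval 1) := X_sub_C_dvd_sub_C_eval
  convert ((WW.const h0 ha hf.le).tt h0 ha).mul (Iall p (f.eval 1)⁻¹) using 1
  rw [mul_add, ← mul_assoc, ← map_mul, mul_inv_cancel₀ hf.ne', map_one] 
  rw [map_one] at hp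
  linear_combination hp

theorem cone_main (f h : ℚ[X]) (hf : 0 < f.eval 1) (hh : 0 < h.eval 1) :
    ∃ m : ℚ[X], 0 < m.eval 1 ∧ (∀ c ∈ C, aeval T (m * f) * c ∈ C) ∧
      ∀ c ∈ C, aeval T (m * h) * c ∈ C := by
  obtain ⟨m, a1, a2, a3⟩ := tt_of_pos h0 ha hT h1 h2 f hf
  obtain ⟨m', b1, b2, b3⟩ := tt_of_pos h0 ha hT h1 h2 h hh
  obtain ⟨n, hn, c1⟩ := a3.mul b1
  obtain ⟨n', hn', c2⟩ := b3.mul a1
  refine ⟨(n * n' : ℕ) * (m * m'), by
    simp only [eval_mul, eval_natCast]; positivity, fun c hc => ?_, fun c hc => ?_⟩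
  · convert nat_mem h0 ha n' (c1 c hc) using 1
    simp only [map_mul, map_natCast, Nat.cast_mul]; ring
  · convert nat_mem h0 ha n (c2 c hc) using 1
    simp only [map_mul, map_natCast, Nat.cast_mul]; ring

end cone

section ext
variable {G : Type} [Group G]

structure WA (P : Set G) : Prop where
  one : (1 : G) ∈ P
  mul : ∀ a ∈ P, ∀ b ∈ P, a * b ∈ P
  anti : ∀ a ∈ P, a⁻¹ ∈ P → a = 1
  conj : ∀ a ∈ P, ∀ x : G, x⁻¹ * a * x ∈ P
  wa : ∀ a ∈ P, ∀ x : G, (x⁻¹ * a * x)⁻¹ * a ^ 2 ∈ P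

structure Sat (E : Set G) : Prop where
  mul : ∀ a ∈ E, ∀ b ∈ E, a * b ∈ E
  conj : ∀ a ∈ E, ∀ x : G, x⁻¹ * a * x ∈ E
  wa : ∀ a ∈ E, ∀ x y : G, (x⁻¹ * a * x)⁻¹ * (y⁻¹ * a * y) * a ∈ E

theorem WA.pow {P : Set G} (h : WA P) {a : G} (ha : a ∈ P) (n : ℕ) : a ^ n ∈ P := by
  induction n with
  | zero => simpa using h.one
  | succ n ih => rw [pow_succ]; exact h.mul _ ih _ ha

theorem WA.extend {P E : Set G} (h : WA P) (hE : Sat E) (hd : ∀ e ∈ E, e⁻¹ ∉ P) :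
    WA {g | g ∈ P ∨ ∃ p ∈ P, ∃ e ∈ E, g = p * e} := by
  have key : ∀ p ∈ P, ∀ e ∈ E, ∀ p' ∈ P, ∃ q ∈ P, ∃ e' ∈ E, p * e * p' = q * e' :=
    fun p hp e he p' hp' => ⟨_, h.mul p hp p' hp', _, hE.conj e he p', by group⟩
  have hm : ∀ p ∈ P, ∀ e ∈ E, ∀ b ∈ {g | g ∈ P ∨ ∃ p ∈ P, ∃ e ∈ E, g = p * e},
      ∃ q ∈ P, ∃ e' ∈ E, p * e * b = q * e' := by
    rintro p hp e he b (hb | ⟨p', hp', e', he', rfl⟩)
    · exact key p hp e he b hb
    · obtain ⟨q, hq, e'', he'', c⟩ := key p hp e he p' hp'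
      exact ⟨q, hq, _, hE.mul _ he'' _ he', by rw [← mul_assoc, c, mul_assoc]⟩
  have hn : ∀ p ∈ P, ∀ e ∈ E, p * e ≠ 1 := fun p hp e he c =>
    hd e he (by rwa [← eq_inv_of_mul_eq_one_left c])
  refine ⟨Or.inl h.one, ?_, ?_, ?_, ?_⟩
  · rintro a (ha | ⟨p, hp, e, he, rfl⟩) b hb
    · rcases hb with hb | ⟨p', hp', e', he', rfl⟩
      · exact Or.inl (h.mul _ ha _ hb)
      · exact Or.inr ⟨_, h.mul _ ha _ hp', e', he', by group⟩
    · exact Or.inr (hm p hp e he b hb)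
  · rintro a (ha | ⟨p, hp, e, he, rfl⟩) hb
    · rcases hb with hb | ⟨p', hp', e', he', c⟩
      · exact h.anti _ ha hb
      · exact absurd (by rw [mul_assoc, ← c, mul_inv_cancel]) (hn _ (h.mul _ ha _ hp') e' he')
    · obtain ⟨q, hq, e', he', c⟩ := hm p hp e he _ hb
      exact absurd (by rw [← c, mul_inv_cancel]) (hn q hq e' he')
  · rintro a (ha | ⟨p, hp, e, he, rfl⟩) x
    · exact Or.inl (h.conj _ ha x)
    · exact Or.inr ⟨_, h.conj p hp x, _, hE.conj e he x, by group⟩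
  · rintro a (ha | ⟨p, hp, e, he, rfl⟩) x
    · exact Or.inl (h.wa _ ha x)
    · exact Or.inr ⟨_, h.wa p hp x, _, hE.wa e he (x * ((x⁻¹ * p * x)⁻¹ * p ^ 2)) p, by
        simp only [pow_two]; group⟩

theorem WA.total (hK : ∀ a : G, a ≠ 1 → ∃ E E' : Set G, Sat E ∧ Sat E' ∧ a ∈ E ∧ a⁻¹ ∈ E' ∧
      ∀ P, WA P → ∀ b ∈ E, ∀ c ∈ E', b⁻¹ ∈ P → c⁻¹ ∈ P → False)
    {P : Set G} (h : WA P) : ∃ Q, P ⊆ Q ∧ WA Q ∧ ∀ a, a ∈ Q ∨ a⁻¹ ∈ Q := by
  obtain ⟨Q, h1, h2⟩ := zorn_subset_nonempty {Q | WA Q} (fun c hc hch ⟨Q₀, hQ₀⟩ => by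
    refine ⟨⋃₀ c, ⟨⟨Q₀, hQ₀, (hc hQ₀).one⟩, ?_, ?_, ?_, ?_⟩, fun s hs => Set.subset_sUnion_of_mem hs⟩
    · rintro a ⟨s, hs, ha⟩ b ⟨t, ht, hb⟩
      rcases hch.total hs ht with e | e
      · exact ⟨t, ht, (hc ht).mul _ (e ha) _ hb⟩
      · exact ⟨s, hs, (hc hs).mul _ ha _ (e hb)⟩
    · rintro a ⟨s, hs, ha⟩ ⟨t, ht, hb⟩
      rcases hch.total hs ht with e | e
      · exact (hc ht).anti _ (e ha) hb
      · exact (hc hs).anti _ ha (e hb)
    · rintro a ⟨s, hs, ha⟩ x; exact ⟨s, hs, (hc hs).conj _ ha x⟩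
    · rintro a ⟨s, hs, ha⟩ x; exact ⟨s, hs, (hc hs).wa _ ha x⟩) P h
  refine ⟨Q, h1, h2.prop, fun a => ?_⟩
  by_contra hne
  rw [not_or] at hne
  obtain ⟨E, E', s1, s2, a1, a2, hk⟩ := hK a (by rintro rfl; exact hne.1 h2.prop.one)
  have key : ∀ E, Sat E → ∀ a ∈ E, a ∉ Q → ∃ b ∈ E, b⁻¹ ∈ Q := by
    intro E s a a1 a2
    by_contra hc
    exact a2 (h2.le_of_ge (h2.prop.extend s fun e he c => hc ⟨e, he, c⟩) (fun g hg => Or.inl hg)
      (Or.inr ⟨1, h2.prop.one, a, a1, (one_mul _).symm⟩))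
  obtain ⟨b, b1, b2⟩ := key E s1 a a1 hne.1
  obtain ⟨c, c1, c2⟩ := key E' s2 _ a2 hne.2
  exact hk Q h2.prop b b1 c c1 b2 c2

end ext
end Pool.Agent.H.MP_79a327_al
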