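import Pool.Agent.H.MP_79a327_al.Cone

namespace Pool.Agent.H.MP_79a327_al
open Polynomial QuadraticAlgebra
set_option linter.unusedSectionVars false

structure RD (A : Type) [CommRing A] : Type where
  u : A
  e0 : A →+* ℚ
  e1 : A →+* ℚ
  e0u : e0 u = 0
  e1u : e1 u = -1
  ker : ∀ a, e0 a = 0 → u ∣ a
  dvd : ∀ a, e0 a ≠ 0 → ∃ r : ℕ, a ∣ (1 + u) ^ r
  unit : ∀ a, e0 a ≠ 0 → e1 a ≠ 0 → IsUnit a

variable {A : Type} [CommRing A] [IsDomain A] [Algebra ℚ A] (d : RD A)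

namespace RD

abbrev B : Type := QuadraticAlgebra A d.u 0

def om (x y : d.B) : A := x.im * y.re - x.re * y.im

theorem norm_eq (x : d.B) : norm x = x.re ^ 2 - d.u * x.im ^ 2 := by rw [norm_def]; ring

theorem om_mul (β x y : d.B) : d.om (β * x) (β * y) = norm β * d.om x y := by
  simp [om, norm_eq]; ring

theorem om_left (β x y : d.B) : d.om (β * x) y = d.om x (star β * y) := by
  simp [om]; ring

def t0 : d.B := ⟨1, 1⟩

theorem t0_unit : IsUnit d.t0 := by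
  rw [isUnit_iff_norm_isUnit]
  apply d.unit <;> simp [norm_eq, t0, d.e0u, d.e1u]

noncomputable def tk (k : ℤ) : d.B := (d.t0_unit.unit ^ k : d.Bˣ)

theorem tk_add (k l : ℤ) : d.tk (k + l) = d.tk k * d.tk l := by simp [tk, zpow_add]
@[simp] theorem tk_zero : d.tk 0 = 1 := by simp [tk]
theorem tk_nat (n : ℕ) : d.tk n = d.t0 ^ n := by simp [tk]
theorem tk_neg (k : ℤ) : d.tk (-k) * d.tk k = 1 := by rw [← tk_add]; simp

noncomputable def nk (k : ℤ) : A := norm (d.tk k)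

theorem nk_add (k l : ℤ) : d.nk (k + l) = d.nk k * d.nk l := by simp [nk, tk_add]
@[simp] theorem nk_zero : d.nk 0 = 1 := by simp [nk]
theorem nk_nat (n : ℕ) : d.nk n = (1 - d.u) ^ n := by
  rw [nk, tk_nat, map_pow]; simp [norm_eq, t0]
theorem nk_neg (k : ℤ) : d.nk (-k) * d.nk k = 1 := by rw [← nk_add]; simp

/-- augmentation -/
def eB : d.B →+* ℚ where
  toFun x := d.e0 x.re
  map_one' := by simp
  map_mul' x y := by simp [d.e0u]
  map_zero' := by simp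
  map_add' x y := by simp

theorem eB_apply (x : d.B) : d.eB x = d.e0 x.re := rfl

theorem e0_norm (x : d.B) : d.e0 (norm x) = d.eB x ^ 2 := by simp [norm_eq, d.e0u, eB_apply]

theorem eB_t0 : d.eB d.t0 = 1 := by simp [eB_apply, t0]

theorem eB_tk (k : ℤ) : d.eB (d.tk k) = 1 := by
  have h : ∀ n : ℕ, d.eB (d.tk n) = 1 := fun n => by rw [tk_nat, map_pow, eB_t0, one_pow]
  obtain ⟨n, rfl | rfl⟩ := k.eq_nat_or_neg
  · exact h n
  · simpa [h n] using congrArg d.eB (d.tk_neg n)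

theorem e1_nk (k : ℤ) : 0 < d.e1 (d.nk k) := by
  have h : ∀ n : ℕ, 0 < d.e1 (d.nk n) := fun n => by
    rw [nk_nat, map_pow, map_sub, map_one, d.e1u]; positivity
  obtain ⟨n, rfl | rfl⟩ := k.eq_nat_or_neg
  · exact h n
  · have := congrArg d.e1 (d.nk_neg n)
    rw [map_mul, map_one] at this
    exact pos_of_mul_pos_of_pos_right' (this ▸ one_pos) (h n)
where pos_of_mul_pos_of_pos_right' {a b : ℚ} (h : 0 < a * b) (hb : 0 < b) : 0 < a :=
  (pos_iff_pos_of_mul_pos h).2 hb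

@[ext] structure G (d : RD A) : Type where
  x : d.B
  z : A
  k : ℤ

noncomputable instance : Mul d.G :=
  ⟨fun a b => ⟨a.x + d.tk a.k * b.x, a.z + d.nk a.k * b.z + d.om a.x (d.tk a.k * b.x), a.k + b.k⟩⟩
instance : One d.G := ⟨⟨0, 0, 0⟩⟩
noncomputable instance : Inv d.G := ⟨fun a => ⟨-(d.tk (-a.k) * a.x), -(d.nk (-a.k) * a.z), -a.k⟩⟩

variable {d}
@[simp] theorem mul_x (a b : d.G) : (a * b).x = a.x + d.tk a.k * b.x := rfl
@[simp] theorem mul_z (a b : d.G) :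
    (a * b).z = a.z + d.nk a.k * b.z + d.om a.x (d.tk a.k * b.x) := rfl
@[simp] theorem mul_k (a b : d.G) : (a * b).k = a.k + b.k := rfl
@[simp] theorem one_x : (1 : d.G).x = 0 := rfl
@[simp] theorem one_z : (1 : d.G).z = 0 := rfl
@[simp] theorem one_k : (1 : d.G).k = 0 := rfl
@[simp] theorem inv_x (a : d.G) : (a⁻¹).x = -(d.tk (-a.k) * a.x) := rfl
@[simp] theorem inv_z (a : d.G) : (a⁻¹).z = -(d.nk (-a.k) * a.z) := rfl
@[simp] theorem inv_k (a : d.G) : (a⁻¹).k = -a.k := rfl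

theorem om_add_left (x x' y : d.B) : d.om (x + x') y = d.om x y + d.om x' y := by simp [om]; ring
theorem om_add_right (x y y' : d.B) : d.om x (y + y') = d.om x y + d.om x y' := by simp [om]; ring
theorem om_neg_left (x y : d.B) : d.om (-x) y = -d.om x y := by simp [om]; ring
theorem om_self (x : d.B) : d.om x x = 0 := by simp [om]; ring
theorem om_swap (x y : d.B) : d.om x y = -d.om y x := by simp [om]; ring
@[simp] theorem om_zero_left (y : d.B) : d.om 0 y = 0 := by simp [om]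
@[simp] theorem om_zero_right (y : d.B) : d.om y 0 = 0 := by simp [om]

noncomputable instance : Group d.G := Group.ofLeftAxioms
  (fun a b c => by
    ext1
    · simp only [mul_x, mul_k, tk_add]; ring
    · simp only [mul_x, mul_z, mul_k, tk_add, map_mul, mul_add, om_add_left, om_add_right,
        mul_assoc, om_mul, nk]
      ring
    · simp only [mul_k, add_assoc])
  (fun a => by ext1 <;> simp)
  (fun a => by ext1 <;> simp [om_neg_left, om_self])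

theorem conj_eq (g y : d.G) (h : g.k = 0) : y⁻¹ * g * y =
    ⟨d.tk (-y.k) * g.x, d.nk (-y.k) * (g.z + 2 * d.om g.x y.x), 0⟩ := by
  ext1
  · simp [h]
  · simp only [mul_x, mul_z, mul_k, inv_x, inv_z, inv_k, h, add_zero, om_add_left, om_neg_left,
      om_mul, om_self, nk]
    rw [om_swap y.x]; ring
  · simp [h]

theorem pow_k (g : d.G) (n : ℕ) : (g ^ n).k = n * g.k := by
  induction n with
  | zero => simp
  | succ n ih => rw [pow_succ, mul_k, ih]; push_cast; ring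

variable (d)

theorem solve (K : ℤ) (hK : K ≠ 0) (x : d.B) (hx : d.eB x = 0) : ∃ y, (d.tk K - 1) * y = x := by
  have key : ∀ n : ℕ, n ≠ 0 → ∀ x : d.B, d.eB x = 0 → ∃ y, (d.tk n - 1) * y = x := by
    intro n hn x hx
    have g := mul_geom_sum d.t0 n
    set σ := ∑ i ∈ Finset.range n, d.t0 ^ i
    have hs : IsUnit σ := by
      rw [isUnit_iff_norm_isUnit]
      apply d.unit
      · rw [e0_norm]
        simp [σ, eB_t0, hn]
      · intro h
        have h1 : d.e1 (norm (d.t0 ^ n - 1)) = 0 := by rw [← g, map_mul, map_mul, h, mul_zero]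
        have h2 : d.e1 (norm (d.t0 ^ n)) = 2 ^ n := by
          rw [← tk_nat, ← nk, nk_nat, map_pow, map_sub, map_one, d.e1u]; norm_num
        generalize d.t0 ^ n = β at h1 h2
        simp only [norm_eq, re_sub, im_sub, re_one, im_one, map_sub, map_mul, map_pow, map_one,
          d.e1u, sub_zero] at h1 h2
        have h3 : d.e1 β.re - 1 = 0 := by nlinarith [sq_nonneg (d.e1 β.re - 1), sq_nonneg (d.e1 β.im)]
        have h4 : d.e1 β.im ^ 2 = 0 := by rw [h3] at h1; linarith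
        have h5 : (1 : ℚ) < 2 ^ n := one_lt_pow₀ one_lt_two hn
        have h6 : d.e1 β.re = 1 := by linarith
        rw [h4, h6] at h2
        linarith
    obtain ⟨a, ha⟩ := d.ker _ hx
    obtain ⟨σ', hσ⟩ := hs.exists_right_inv
    refine ⟨σ' * ⟨x.im, a⟩, ?_⟩
    rw [tk_nat, ← g, mul_assoc, ← mul_assoc σ, hσ, one_mul]
    ext <;> simp [t0, ha]
  obtain ⟨n, rfl | rfl⟩ := K.eq_nat_or_neg
  · exact key n (by omega) x hx
  · obtain ⟨y, hy⟩ := key n (by omega) x hx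
    refine ⟨-(d.tk n * y), ?_⟩
    linear_combination hy - y * d.tk_neg n

/-- abelian quotient -/
noncomputable def pi : d.G →* Multiplicative (ℤ × ℚ) where
  toFun g := Multiplicative.ofAdd (g.k, d.eB g.x)
  map_one' := by simp
  map_mul' a b := by
    rw [← ofAdd_add]; simp [eB_tk]

def Zc : Subgroup d.G where
  carrier := {g | g.k = 0 ∧ g.x = 0}
  one_mem' := ⟨rfl, rfl⟩
  mul_mem' := fun {a b} ha hb => ⟨by simp [ha.1, hb.1], by simp [ha.2, hb.2]⟩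
  inv_mem' := fun {a} ha => ⟨by simp [ha.1], by simp [ha.2]⟩

instance : d.Zc.Normal := ⟨fun g h y => ⟨by simp [h.1], by
  have := conj_eq g y⁻¹ h.1
  rw [inv_inv] at this
  rw [this]; simp [h.2]⟩⟩

theorem top_case {P : Set d.G} (hP : WA P) {g h : d.G} (hg : g ∈ P) (hh : h⁻¹ ∈ P)
    (e : d.pi g = d.pi h) (hk : g.k ≠ 0) : False := by
  have e1 : g.k = h.k := congrArg (fun p => (Multiplicative.toAdd p).1) e
  have e2 : d.eB g.x = d.eB h.x := congrArg (fun p => (Multiplicative.toAdd p).2) e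
  obtain ⟨y, hy⟩ := d.solve g.k hk (h.x - g.x) (by rw [map_sub, e2, sub_self])
  set g' := (⟨y, 0, 0⟩ : d.G)⁻¹ * g * ⟨y, 0, 0⟩ with hg'
  have hg'P : g' ∈ P := hP.conj g hg _
  have k' : g'.k = h.k := by simp [hg', e1]
  have x' : g'.x = h.x := by simp [hg']; linear_combination hy
  have hq : (g' : d.G ⧸ d.Zc) = h := QuotientGroup.eq.2 ⟨by simp [k'], by simp [x', k']⟩
  have hζ : (g' ^ 2)⁻¹ * h ^ 3 * g'⁻¹ ∈ d.Zc := by
    rw [← QuotientGroup.eq_one_iff]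
    simp only [QuotientGroup.mk_mul, QuotientGroup.mk_inv, QuotientGroup.mk_pow, hq]
    group
  set ζ := (g' ^ 2)⁻¹ * h ^ 3 * g'⁻¹ with hζ'
  obtain ⟨y₁, hy₁⟩ := d.solve (-g'.k) (by rw [k', ← e1]; omega) ⟨0, -1⟩ (by simp [eB_apply])
  set p := (⟨y₁, 0, 0⟩ : d.G)⁻¹ * g' * ⟨y₁, 0, 0⟩ with hp
  set v := g'⁻¹ * p with hv
  have vk : v.k = 0 := by simp [hv, hp]
  have vx : v.x = ⟨0, 1⟩ := by
    have : v.x = -((d.tk (-g'.k) - 1) * y₁) := by
      simp only [hv, hp, mul_x, mul_k, inv_x, inv_k, neg_zero, tk_zero, zero_add]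
      linear_combination y₁ * d.tk_neg g'.k
    rw [this, hy₁]; ext <;> simp
  set w : d.G := ⟨⟨algebraMap ℚ A (1 / 2) * ζ.z, 0⟩, 0, 0⟩ with hw
  have h2 : (2 : A) * algebraMap ℚ A (1 / 2) = 1 := by
    rw [← map_ofNat (algebraMap ℚ A) 2, ← map_mul]; norm_num
  have hvw : w⁻¹ * v * w * v⁻¹ = ζ := by
    rw [conj_eq v w vk]
    ext1
    · simp [hw, vk, hζ.2]
    · simp only [hw, vk, vx, mul_z, inv_z, inv_x, neg_zero, tk_zero, nk_zero, one_mul, om,
        re_neg, im_neg]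
      linear_combination ζ.z * h2
    · simp [vk, hζ.1]
  have a1 := hP.conj _ (hP.wa _ hg'P w) (g' ^ 2)⁻¹
  have a2 := hP.conj _ (hP.conj _ hg'P ⟨y₁, 0, 0⟩) w
  have a3 := hP.wa _ hg'P ⟨y₁, 0, 0⟩
  have a4 := hP.mul _ (hP.mul _ a1 _ a2) _ a3
  rw [← hp] at a4
  have e3 : h ^ 3 = g' ^ 2 * (w⁻¹ * v * w * v⁻¹) * g' := by rw [hvw, hζ']; group
  have e4 : h ^ 3 ∈ P := by
    convert a4 using 1
    rw [e3, hv]; simp only [pow_two, mul_assoc, mul_inv_rev, inv_inv, mul_inv_cancel_left]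
  have e5 := hP.anti _ e4 (by simpa using hP.pow hh 3)
  have := congrArg G.k e5
  rw [pow_k, one_k] at this
  omega

theorem sat_top (a : d.G) : Sat {g | ∃ l : ℕ, 0 < l ∧ d.pi g = d.pi a ^ l} := by
  refine ⟨?_, ?_, ?_⟩
  · rintro g ⟨l, h1, h2⟩ g' ⟨l', h1', h2'⟩
    exact ⟨l + l', by omega, by rw [map_mul, h2, h2', pow_add]⟩
  · rintro g ⟨l, h1, h2⟩ x
    exact ⟨l, h1, by simp [h2]⟩
  · rintro g ⟨l, h1, h2⟩ x y
    exact ⟨l, h1, by simp [h2]⟩

theorem not_Ostar {Q : Set d.G} (hm : ∀ a ∈ Q, ∀ b ∈ Q, a * b ∈ Q)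
    (ha : ∀ a ∈ Q, a⁻¹ ∈ Q → a = 1) (hc : ∀ a ∈ Q, ∀ x : d.G, x⁻¹ * a * x ∈ Q)
    (ht : ∀ a, a ∈ Q ∨ a⁻¹ ∈ Q)
    (hP : ∀ g : d.G, g.k = 0 → d.e1 g.x.re = 0 → d.e1 g.x.im = 0 → 0 < d.e1 g.z → g ∈ Q) :
    False := by
  have key : ∀ σ : A, σ * σ = 1 → (⟨⟨σ, 0⟩, 0, 0⟩ : d.G) ∉ Q := by
    intro σ hσ h
    set a : d.G := ⟨⟨σ, 0⟩, 0, 0⟩ with ha'
    set g := (⟨0, 0, -4⟩ : d.G)⁻¹ * a * ⟨0, 0, -4⟩ * a * a * a with hg
    have hgQ : g ∈ Q := hm _ (hm _ (hm _ (hc a h _) _ h) _ h) _ h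
    have gk : g.k = 0 := by simp [hg, ha']
    have gx : g.x = d.t0 ^ 4 * ⟨σ, 0⟩ + 3 * ⟨σ, 0⟩ := by
      rw [hg, conj_eq a _ rfl, ← d.tk_nat]
      simp only [mul_x, mul_k, ha', add_zero, tk_zero, neg_neg]
      norm_num; ring
    have h2 : (2 : A) * algebraMap ℚ A (1 / 2) = 1 := by
      rw [← map_ofNat (algebraMap ℚ A) 2, ← map_mul]; norm_num
    set y : d.G := ⟨⟨0, σ * algebraMap ℚ A (1 / 2) * (1 + g.z + d.om g.x ⟨σ, 0⟩)⟩, 0, 0⟩ with hy
    set b := g * (y⁻¹ * a * y) with hb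
    have hbQ : b ∈ Q := hm _ hgQ _ (hc a h y)
    have bk : b.k = 0 := by simp [hb, gk, ha']
    have bz : b.z = -1 := by
      rw [hb, conj_eq a y rfl]
      simp only [mul_z, gk, hy, ha', neg_zero, tk_zero, nk_zero, one_mul]
      rw [show ∀ c : A, d.om ⟨σ, 0⟩ ⟨0, c⟩ = -(σ * c) from fun c => by simp [om]]
      linear_combination (-(1 + g.z + d.om g.x ⟨σ, 0⟩)) * (σ * σ) * h2 -
        (1 + g.z + d.om g.x ⟨σ, 0⟩) * hσ
    have bx : b.x = ⟨(1 + d.u) * (5 + d.u) * σ, (1 + d.u) * 4 * σ⟩ := by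
      rw [hb, conj_eq a y rfl]
      simp only [mul_x, gk, hy, ha', neg_zero, tk_zero, one_mul, gx]
      ext <;> simp [t0, pow_succ, -mul_eq_mul_right_iff] <;> ring
    have := ha b hbQ (hP _ (by simp [bk]) (by simp [bk, bx, d.e1u]) (by simp [bk, bx, d.e1u])
      (by simp [bk, bz]))
    rw [this] at bz
    simp at bz
  rcases ht ⟨⟨1, 0⟩, 0, 0⟩ with h | h
  · exact key 1 (by simp) h
  · refine key (-1) (by simp) ?_
    convert h using 1
    ext <;> simp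

theorem P0 : let P : Set d.G := {g | g = 1 ∨
      (g.k = 0 ∧ d.e1 g.x.re = 0 ∧ d.e1 g.x.im = 0 ∧ 0 < d.e1 g.z)}
    (1 : d.G) ∈ P ∧ (∀ a ∈ P, ∀ b ∈ P, a * b ∈ P) ∧ (∀ a ∈ P, a⁻¹ ∈ P → a = 1) ∧
      (∀ a ∈ P, ∀ x : d.G, x⁻¹ * a * x ∈ P) := by
  refine ⟨Or.inl rfl, ?_, ?_, ?_⟩
  · rintro a (rfl | ⟨a1, a2, a3, a4⟩) b hb
    · rwa [one_mul]
    · rcases hb with rfl | ⟨b1, b2, b3, b4⟩
      · rw [mul_one]; exact Or.inr ⟨a1, a2, a3, a4⟩
      · refine Or.inr ⟨by simp [a1, b1], by simp [a1, a2, b2], by simp [a1, a3, b3], ?_⟩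
        simp [a1, om, a2, a3]; linarith
  · rintro a (rfl | ⟨a1, a2, a3, a4⟩) hb
    · rfl
    · rcases hb with hb | ⟨-, -, -, b4⟩
      · exact inv_eq_one.1 hb
      · simp [a1] at b4; linarith
  · rintro a (rfl | ⟨a1, a2, a3, a4⟩) x
    · left; group
    · rw [conj_eq a x a1]
      refine Or.inr ⟨rfl, by simp [a2, a3], by simp [a2, a3], ?_⟩
      simp only [om, map_mul, map_add, map_sub, a2, a3]
      have := d.e1_nk (-x.k)
      simpa using mul_pos this a4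

end RD
end Pool.Agent.H.MP_79a327_al
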