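import Pool.Agent.H.MP_79a327_al.Grp

namespace Pool.Agent.H.MP_79a327_al
open Polynomial QuadraticAlgebra
set_option linter.unusedSectionVars false

theorem map_aev {R R' : Type} [CommRing R] [CommRing R'] [Algebra ℚ R] [Algebra ℚ R']
    (φ : R →+* R') (t : R) (w : ℚ[X]) : φ (aeval t w) = aeval (φ t) w :=
  (aeval_algHom_apply φ.toRatAlgHom t w).symm

variable {A : Type} [CommRing A] [IsDomain A] [Algebra ℚ A] (d : RD A)

namespace RD

def J (x : d.B) : Ideal A where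
  carrier := {c | ∃ y, c = d.om x y}
  zero_mem' := ⟨0, by simp⟩
  add_mem' := by
    rintro _ _ ⟨y, rfl⟩ ⟨y', rfl⟩
    exact ⟨y + y', by rw [om_add_right]⟩
  smul_mem' := by
    rintro c _ ⟨y, rfl⟩
    exact ⟨c • y, by simp [om]; ring⟩

theorem om_mem {x x' : d.B} (h : x ∣ x') (y : d.B) : d.om x' y ∈ d.J x := by
  obtain ⟨β, rfl⟩ := h
  exact ⟨_, by rw [mul_comm, om_left]⟩

abbrev S (x : d.B) : Type := d.B × (A ⧸ d.J x)

noncomputable def Tk (x : d.B) (k : ℤ) : d.S x := (d.tk k, Ideal.Quotient.mk _ (d.nk k))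

theorem Tk_add (x : d.B) (k l : ℤ) : d.Tk x (k + l) = d.Tk x k * d.Tk x l := by
  simp [Tk, tk_add, nk_add]

theorem Tk_zero (x : d.B) : d.Tk x 0 = 1 := by simp [Tk]

theorem Tk_nat (x : d.B) (n : ℕ) : d.Tk x n = d.Tk x 1 ^ n := by
  induction n with
  | zero => simp [Tk_zero]
  | succ n ih => rw [Nat.cast_succ, Tk_add, ih, pow_succ]

def mu (x : d.B) (g : d.G) : d.S x := (g.x, Ideal.Quotient.mk _ g.z)

def N (x : d.B) : Subgroup d.G where
  carrier := {g | g.k = 0 ∧ x ∣ g.x}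
  one_mem' := ⟨rfl, dvd_zero _⟩
  mul_mem' := fun {a b} ha hb => ⟨by simp [ha.1, hb.1], by simpa [ha.1] using ha.2.add hb.2⟩
  inv_mem' := fun {a} ha => ⟨by simp [ha.1], by simpa [ha.1] using ha.2⟩

variable {d} {x : d.B}

theorem N_conj {g : d.G} (h : g ∈ d.N x) (y : d.G) : y⁻¹ * g * y ∈ d.N x := by
  rw [conj_eq g y h.1]; exact ⟨rfl, h.2.mul_left _⟩

theorem mu_mul {g : d.G} (h : g ∈ d.N x) (g' : d.G) : d.mu x (g * g') = d.mu x g + d.mu x g' := by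
  simp [mu, h.1, Ideal.Quotient.eq_zero_iff_mem.2 (d.om_mem h.2 _)]

theorem mu_inv {g : d.G} (h : g ∈ d.N x) : d.mu x g⁻¹ = -d.mu x g := by
  simp [mu, h.1]

theorem mu_conj {g : d.G} (h : g ∈ d.N x) (y : d.G) :
    d.mu x (y⁻¹ * g * y) = d.Tk x (-y.k) * d.mu x g := by
  rw [conj_eq g y h.1]
  simp [mu, Tk, Ideal.Quotient.eq_zero_iff_mem.2 (d.om_mem h.2 _)]

def R (a g : d.G) (q : ℚ) : Prop := g ∈ d.N a.x ∧ ∃ (n : ℕ) (f : ℚ[X]), f.eval 1 = q ∧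
  d.Tk a.x 1 ^ n * d.mu a.x g = aeval (d.Tk a.x 1) f * d.mu a.x a

variable {a g g' : d.G} {q q' : ℚ}

theorem R.mul (h : R a g q) (h' : R a g' q') : R a (g * g') (q + q') := by
  obtain ⟨h1, n, f, rfl, h2⟩ := h
  obtain ⟨h1', n', f', rfl, h2'⟩ := h'
  refine ⟨mul_mem h1 h1', n + n', X ^ n' * f + X ^ n * f', by simp, ?_⟩
  rw [mu_mul h1]
  simp only [map_add, map_mul, map_pow, aeval_X]
  linear_combination d.Tk a.x 1 ^ n' * h2 + d.Tk a.x 1 ^ n * h2'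

theorem R.inv (h : R a g q) : R a g⁻¹ (-q) := by
  obtain ⟨h1, n, f, rfl, h2⟩ := h
  refine ⟨inv_mem h1, n, -f, by simp, ?_⟩
  rw [mu_inv h1, map_neg]
  linear_combination -h2

theorem R.conj (h : R a g q) (y : d.G) : R a (y⁻¹ * g * y) q := by
  obtain ⟨h1, n, f, rfl, h2⟩ := h
  refine ⟨N_conj h1 y, ?_⟩
  rw [mu_conj h1]
  obtain ⟨m, e | e⟩ := y.k.eq_nat_or_neg
  · refine ⟨n + m, f, rfl, ?_⟩
    have := d.Tk_add a.x m (-m)
    rw [add_neg_cancel, Tk_zero, Tk_nat] at this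
    rw [e]
    linear_combination h2 - d.Tk a.x 1 ^ n * d.mu a.x g * this
  · refine ⟨n, X ^ m * f, by simp, ?_⟩
    rw [e, neg_neg, Tk_nat]
    simp only [map_mul, map_pow, aeval_X]
    linear_combination d.Tk a.x 1 ^ m * h2

theorem sat_mid (a : d.G) (ε : ℚ) : Sat {g | ∃ q, 0 < ε * q ∧ R a g q} := by
  refine ⟨?_, ?_, ?_⟩
  · rintro g ⟨q, h1, h2⟩ g' ⟨q', h1', h2'⟩
    exact ⟨q + q', by linarith, h2.mul h2'⟩
  · rintro g ⟨q, h1, h2⟩ y
    exact ⟨q, h1, h2.conj y⟩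
  · rintro g ⟨q, h1, h2⟩ y y'
    exact ⟨_, by linarith, ((h2.conj y).inv.mul (h2.conj y')).mul h2⟩

theorem Dpow {P : Set d.G} (hP : WA P) (hg : g ∈ P) (hk : g.k = 0) (r : ℕ) :
    ∃ g' ∈ P, g'.k = 0 ∧ g'.x = (2 - d.t0) ^ r * g.x ∧ g'.z - (1 + d.u) ^ r * g.z ∈ d.J g.x := by
  induction r with
  | zero => exact ⟨g, hg, hk, by simp, by simp⟩
  | succ r ih =>
    obtain ⟨g', h1, h2, h3, h4⟩ := ih
    have hN : g' ∈ d.N g.x := ⟨h2, h3 ▸ dvd_mul_left _ _⟩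
    have hc := N_conj hN ⟨0, 0, -1⟩
    have e : d.mu g.x (((⟨0, 0, -1⟩ : d.G)⁻¹ * g' * ⟨0, 0, -1⟩)⁻¹ * g' ^ 2) =
        (2 - d.Tk g.x 1) * d.mu g.x g' := by
      rw [mu_mul (inv_mem hc), mu_inv hc, mu_conj hN, pow_two, mu_mul hN, neg_neg]; ring
    have t1 : d.tk 1 = d.t0 := by simpa using d.tk_nat 1
    have n1 : d.nk 1 = 1 - d.u := by simpa using d.nk_nat 1
    refine ⟨_, hP.wa g' h1 ⟨0, 0, -1⟩, (mul_mem (inv_mem hc) (pow_mem hN 2)).1, ?_, ?_⟩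
    · have := congrArg Prod.fst e
      simp only [mu, Tk, Prod.fst_mul, Prod.fst_sub, Prod.fst_ofNat, t1, h3] at this
      rw [this]; ring
    · have := congrArg Prod.snd e
      simp only [mu, Tk, Prod.snd_mul, Prod.snd_sub, Prod.snd_ofNat, n1] at this
      rw [← Ideal.Quotient.eq] at h4 ⊢
      rw [this, h4]
      simp only [map_mul, map_pow, map_add, map_sub, map_one]; ring

theorem mid_case (ha : a.k = 0) (h1 : a ≠ 1) {P : Set d.G} (hP : WA P) (hg : g ∈ P) (hg' : g' ∈ P)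
    (h : R a g q) (h' : R a g' q') (hq : q < 0) (hq' : 0 < q') : False := by
  set T := d.Tk a.x 1 with hT
  let C : Set (d.S a.x) := {s | ∃ p ∈ P, p ∈ d.N a.x ∧ s = d.mu a.x p}
  have cT : ∀ k : ℤ, ∀ c ∈ C, d.Tk a.x k * c ∈ C := by
    rintro k _ ⟨p, p1, p2, rfl⟩
    exact ⟨_, hP.conj p p1 ⟨0, 0, -k⟩, N_conj p2 _, by rw [mu_conj p2, neg_neg]⟩
  have cW : ∀ k : ℤ, ∀ c ∈ C, (2 - d.Tk a.x k) * c ∈ C := by
    rintro k _ ⟨p, p1, p2, rfl⟩
    have hc := N_conj p2 ⟨0, 0, -k⟩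
    refine ⟨_, hP.wa p p1 ⟨0, 0, -k⟩, mul_mem (inv_mem hc) (pow_mem p2 2), ?_⟩
    rw [mu_mul (inv_mem hc), mu_inv hc, mu_conj p2, pow_two, mu_mul p2, neg_neg]; ring
  obtain ⟨hN, n, f, rfl, e⟩ := h
  obtain ⟨hN', n', f', rfl, e'⟩ := h'
  obtain ⟨m, m0, m1, m2⟩ := cone_main (T := T) (C := C) ⟨1, hP.one, one_mem _, by simp [mu]; rfl⟩
    (by
      rintro _ ⟨p, p1, p2, rfl⟩ _ ⟨p', p1', p2', rfl⟩
      exact ⟨_, hP.mul p p1 p' p1', mul_mem p2 p2', (mu_mul p2 _).symm⟩)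
    (cT 1) (fun j => by rw [hT, ← Tk_nat]; exact cW j)
    (fun j c hc => by
      have := cW (-j) _ (cT j c hc)
      have e := d.Tk_add a.x (-j) j
      rw [neg_add_cancel, Tk_zero] at e
      convert this using 1
      rw [hT, ← Tk_nat]
      linear_combination (-c) * e)
    (-f) f' (by simpa using hq) hq'
  have c1 := m2 _ (cT n _ ⟨g, hg, hN, rfl⟩)
  have c2 := m1 _ (cT n' _ ⟨g', hg', hN', rfl⟩)
  rw [Tk_nat, ← hT, e] at c1
  rw [Tk_nat, ← hT, e'] at c2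
  obtain ⟨w, hw⟩ : ∃ w, w = m * f * f' := ⟨_, rfl⟩
  have w1 : w.eval 1 ≠ 0 := by
    rw [hw, eval_mul, eval_mul]; exact mul_ne_zero (mul_ne_zero m0.ne' hq.ne) hq'.ne'
  obtain ⟨p, p1, p2, p3⟩ := c1
  obtain ⟨p', p1', p2', p3'⟩ := c2
  have q3 : d.mu a.x p = aeval T w * d.mu a.x a := by
    rw [← p3, hw]; simp only [map_mul]; ring
  have q3' : d.mu a.x p' = -d.mu a.x p := by
    rw [← p3, ← p3']; simp only [map_mul, map_neg]; ring
  have t1 : d.tk 1 = d.t0 := by simpa using d.tk_nat 1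
  have n1 : d.nk 1 = 1 - d.u := by simpa using d.nk_nat 1
  have px : p.x = aeval d.t0 w * a.x := by
    have := congrArg Prod.fst q3
    rw [Prod.fst_mul, show (aeval T w).1 = _ from map_aev (RingHom.fst _ _) T w] at this
    simpa [mu, hT, Tk, t1] using this
  have pz : p.z - aeval (1 - d.u) w * a.z ∈ d.J a.x := by
    have := congrArg Prod.snd q3
    rw [Prod.snd_mul, show (aeval T w).2 = _ from map_aev (RingHom.snd _ _) T w] at this
    rw [← Ideal.Quotient.eq, map_mul, map_aev]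
    simpa [mu, hT, Tk, n1] using this
  have px' : p'.x = -p.x := congrArg Prod.fst q3'
  have pz' : p.z + p'.z ∈ d.J a.x := by
    have : Ideal.Quotient.mk _ p'.z = -Ideal.Quotient.mk (d.J a.x) p.z := congrArg Prod.snd q3'
    rw [← Ideal.Quotient.eq_zero_iff_mem, map_add, this, add_neg_cancel]
  have hν : d.e0 (norm (aeval d.t0 w)) ≠ 0 := by
    rw [e0_norm, map_aev, eB_t0]; simpa using w1
  obtain ⟨r, c, hr⟩ := d.dvd _ hν
  obtain ⟨s, s1, s2, s3, s4⟩ := Dpow hP p1 p2.1 r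
  obtain ⟨s', s1', s2', s3', s4'⟩ := Dpow hP p1' p2'.1 r
  have hu : IsUnit ((2 - d.t0) ^ r) := by
    refine IsUnit.pow r ?_
    rw [isUnit_iff_norm_isUnit]
    apply d.unit <;> simp [norm_eq, t0, d.e0u, d.e1u, map_ofNat] <;> norm_num
  have hJ : s.z + s'.z ∈ d.J s'.x := by
    obtain ⟨β, hβ⟩ := hu.exists_left_inv
    have hd : s'.x ∣ p.x := ⟨-β, by rw [s3', px']; linear_combination (-p.x) * hβ⟩
    have hle : ∀ {x' : d.B}, s'.x ∣ x' → d.J x' ≤ d.J s'.x := by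
      rintro x' h _ ⟨y, rfl⟩; exact d.om_mem h y
    obtain ⟨y, hy⟩ := pz'
    have b1 := hle hd s4
    have b2 := hle (px' ▸ hd.neg_right) s4'
    have b3 := (d.J s'.x).mul_mem_left c (d.om_mem hd (aeval d.t0 w * y))
    rw [px, om_mul, ← hy] at b3
    convert add_mem (add_mem b1 b2) b3 using 1
    rw [hr]; ring
  obtain ⟨y, hy⟩ := hJ
  have h2 : (2 : A) * algebraMap ℚ A (1 / 2) = 1 := by
    rw [← map_ofNat (algebraMap ℚ A) 2, ← map_mul]; norm_num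
  have hs : s = 1 := by
    refine hP.anti s s1 ?_
    convert hP.conj s' s1' ⟨(-algebraMap ℚ A (1 / 2)) • y, 0, 0⟩ using 1
    rw [conj_eq s' _ s2']
    ext1
    · simp [s2, s3, s3', px']
    · simp only [inv_z, s2, neg_zero, nk_zero, one_mul, om, re_smul, im_smul, smul_eq_mul] at hy ⊢
      linear_combination -hy + (s'.x.im * y.re - s'.x.re * y.im) * h2
    · simp [s2]
  have x0 : p.x = 0 := by
    rw [hs, one_x] at s3
    exact (hu.mul_right_eq_zero).1 s3.symm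
  have ax : a.x = 0 := by
    have : norm (aeval d.t0 w) • a.x = 0 := by
      rw [Algebra.smul_def, algebraMap_norm_eq_mul_star]
      linear_combination (-star (aeval d.t0 w)) * px + star (aeval d.t0 w) * x0
    have hne : norm (aeval d.t0 w) ≠ 0 := fun h => hν (by rw [h, map_zero])
    ext
    · simpa [hne] using congrArg QuadraticAlgebra.re this
    · simpa [hne] using congrArg QuadraticAlgebra.im this
  rw [hs, x0] at s4
  rw [ax] at pz
  obtain ⟨y1, e1⟩ := s4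
  obtain ⟨y2, e2⟩ := pz
  have u1 : (1 + d.u) ≠ 0 := fun h => by simpa [d.e0u] using congrArg d.e0 h
  have z0 : p.z = 0 := by simpa [u1] using e1
  have w2 : aeval (1 - d.u) w ≠ 0 := fun h => by
    have := congrArg d.e0 h
    rw [map_aev] at this
    exact w1 (by simpa [d.e0u] using this)
  exact h1 (G.ext ax (by simpa [z0, w2] using e2) ha)

theorem key (a : d.G) (h1 : a ≠ 1) : ∃ E E' : Set d.G, Sat E ∧ Sat E' ∧ a ∈ E ∧ a⁻¹ ∈ E' ∧
    ∀ P, WA P → ∀ b ∈ E, ∀ c ∈ E', b⁻¹ ∈ P → c⁻¹ ∈ P → False := by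
  by_cases ha : a.k = 0
  · have r : R a a 1 := ⟨⟨ha, dvd_rfl⟩, 0, 1, by simp, by simp⟩
    refine ⟨_, _, sat_mid a 1, sat_mid a (-1), ⟨1, by simp, r⟩, ⟨-1, by simp, r.inv⟩, ?_⟩
    rintro P hP b ⟨q, b1, b2⟩ c ⟨q', c1, c2⟩ hb hc
    exact mid_case ha h1 hP hb hc b2.inv c2.inv (by linarith) (by linarith)
  · refine ⟨_, _, d.sat_top a, d.sat_top a⁻¹, ⟨1, one_pos, by simp⟩, ⟨1, one_pos, by simp⟩, ?_⟩
    rintro P hP b ⟨l, b1, b2⟩ c ⟨l', c1, c2⟩ hb hc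
    refine d.top_case hP (hP.pow hc l) (h := b ^ l') (by rw [← inv_pow]; exact hP.pow hb l') ?_ ?_
    · rw [map_pow, map_pow, map_inv, b2, c2, map_inv, inv_pow _ l', inv_inv, ← pow_mul, ← pow_mul,
        mul_comm]
    · have : c.k = l' * -a.k := by
        rw [← map_pow] at c2
        have := congrArg (fun p => (Multiplicative.toAdd p).1) c2
        rwa [← inv_k, ← pow_k]
      rw [pow_k, inv_k, this]
      simp [ha, b1.ne', c1.ne']

end RD
end Pool.Agent.H.MP_79a327_al
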