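import Pool.Agent.H.MP_79a327_al.Mid

namespace Pool.Agent.H.MP_79a327_al
open Polynomial

def SS : Submonoid ℚ[X] where
  carrier := {f | f.eval 0 ≠ 0 ∧ f.eval (-1) ≠ 0}
  one_mem' := by simp
  mul_mem' := fun {a b} ha hb => by
    simp only [Set.mem_ofPred_eq, eval_mul]
    exact ⟨mul_ne_zero ha.1 hb.1, mul_ne_zero ha.2 hb.2⟩

abbrev AA : Type := Localization SS

theorem SS_le : SS ≤ nonZeroDivisors ℚ[X] := fun f hf =>
  mem_nonZeroDivisors_of_ne_zero fun h => hf.1 (by simp [h])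

instance : IsDomain AA := IsLocalization.isDomain_localization SS_le

noncomputable def ev0 : AA →+* ℚ :=
  IsLocalization.lift (M := SS) (g := evalRingHom 0) fun y => y.2.1.isUnit

noncomputable def ev1 : AA →+* ℚ :=
  IsLocalization.lift (M := SS) (g := evalRingHom (-1)) fun y => y.2.2.isUnit

theorem ev0_alg (f : ℚ[X]) : ev0 (algebraMap _ AA f) = f.eval 0 := IsLocalization.lift_eq _ f
theorem ev1_alg (f : ℚ[X]) : ev1 (algebraMap _ AA f) = f.eval (-1) := IsLocalization.lift_eq _ f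

theorem rep (a : AA) : ∃ (f : ℚ[X]) (v : AAˣ), a = algebraMap _ AA f * v := by
  obtain ⟨⟨f, s⟩, h⟩ := IsLocalization.surj SS a
  obtain ⟨v, hv⟩ := IsLocalization.map_units AA s
  exact ⟨f, v⁻¹, by rw [← h, ← hv]; simp⟩

noncomputable def rd : RD AA where
  u := algebraMap ℚ[X] AA X
  e0 := ev0
  e1 := ev1
  e0u := by simp [ev0_alg]
  e1u := by simp [ev1_alg]
  ker a h := by
    obtain ⟨f, v, rfl⟩ := rep a
    rw [map_mul, ev0_alg, (v.isUnit.map ev0).mul_left_eq_zero, ← coeff_zero_eq_eval_zero,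
      ← X_dvd_iff] at h
    exact (_root_.map_dvd _ h).mul_right _
  dvd a h := by
    obtain ⟨f, v, rfl⟩ := rep a
    rw [map_mul, ev0_alg] at h
    have h0 := left_ne_zero_of_mul h
    obtain ⟨g, e, hg⟩ := exists_eq_pow_rootMultiplicity_mul_and_not_dvd f
      (fun e => h0 (by simp [e])) (-1)
    refine ⟨rootMultiplicity (-1) f, ?_⟩
    have hs : g ∈ SS := ⟨fun e' => h0 (by rw [e, eval_mul, e', mul_zero]), by
      rwa [dvd_iff_isRoot] at hg⟩
    generalize rootMultiplicity (-1) f = r at e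
    rw [Units.mul_right_dvd, e, map_mul, (IsLocalization.map_units AA ⟨g, hs⟩).mul_right_dvd]
    simp [add_comm]
  unit a h h' := by
    obtain ⟨f, v, rfl⟩ := rep a
    rw [map_mul, ev0_alg] at h
    rw [map_mul, ev1_alg] at h'
    exact (IsLocalization.map_units (M := SS) AA
      ⟨f, left_ne_zero_of_mul h, left_ne_zero_of_mul h'⟩).mul v.isUnit

end Pool.Agent.H.MP_79a327_al
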